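import Mathlib
import Pool.Agent.N178.HX.StmH
import Pool.Agent.W547.UB.Main
import Pool.Agent.N830.HC.Polar

/-!
# The product principle for systems of classes and independent CM blocks (task PROD of GHC3)
-/

set_option autoImplicit false
set_option linter.unusedSectionVars false
set_option linter.unusedVariables false

namespace Pool.Agent.N776.HX

open Finset Module NumberField Pool.Agent.N178.HX Pool.Agent.H204R3.CM Equiv
open Pool.Agent.R915 (Sys)
open Pool.Agent.N830.HC (av)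
open Pool.Agent.W547.KB Pool.Agent.W547.LD Pool.Agent.W547.LN Pool.Agent.W547.UB

noncomputable section

/-! ### The span of the classes of the system over a number field -/

section span

variable {𝒜 : Sys} {L : Type} [Field L] [NumberField L] {X Y : CMAV} {κ κ' : Type}

/-- The span over `L` of the classes of the system. -/
def LSA (𝒜 : Sys) (L : Type) [Field L] [NumberField L] (X : CMAV) (κ : Type) :
    Submodule L ((κ → X.H1) → L) :=
  Submodule.span L {g | ∃ f : X.H1 [⋀^κ]→ₗ[ℚ] ℚ, 𝒜.A (av X) κ f ∧ g = fun v => ((f v : ℚ) : L)}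

theorem LSA.of_mem {f : X.H1 [⋀^κ]→ₗ[ℚ] ℚ} (hf : 𝒜.A (av X) κ f) :
    (fun v => ((f v : ℚ) : L)) ∈ LSA 𝒜 L X κ :=
  Submodule.subset_span ⟨f, hf, rfl⟩

theorem LSA.unit [IsEmpty κ] (F : (κ → X.H1) → L) : F ∈ LSA 𝒜 L X κ := by
  have h1 : F = F (fun k => isEmptyElim k) • (fun v =>
      (((AlternatingMap.constOfIsEmpty ℚ X.H1 κ (1 : ℚ)) v : ℚ) : L)) := by
    funext v
    have h2 : v = fun k => isEmptyElim k := funext fun k => isEmptyElim k
    subst h2
    simp
  rw [h1]
  exact Submodule.smul_mem _ _ (LSA.of_mem (𝒜.unit (X := av X) _))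

theorem LSA.reindex (e : κ ≃ κ') {F : (κ → X.H1) → L} (hF : F ∈ LSA 𝒜 L X κ) :
    (fun v : κ' → X.H1 => F (fun k => v (e k))) ∈ LSA 𝒜 L X κ' := by
  induction hF using Submodule.span_induction with
  | mem F hF =>
    obtain ⟨f, hf, rfl⟩ := hF
    exact LSA.of_mem (𝒜.reindex (X := av X) e f hf)
  | zero => exact Submodule.zero_mem _
  | add F G _ _ hF hG => exact Submodule.add_mem _ hF hG
  | smul c F _ hF => exact Submodule.smul_mem _ c hF

theorem LSA.pull {h : X.H1 →ₗ[ℚ] Y.H1} (hh : IsHom X Y h) {F : (κ → Y.H1) → L}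
    (hF : F ∈ LSA 𝒜 L Y κ) : (fun v : κ → X.H1 => F (fun k => h (v k))) ∈ LSA 𝒜 L X κ := by
  induction hF using Submodule.span_induction with
  | mem F hF =>
    obtain ⟨f, hf, rfl⟩ := hF
    exact LSA.of_mem (𝒜.pull (X := av X) (Y := av Y) h hh f hf)
  | zero => exact Submodule.zero_mem _
  | add F G _ _ hF hG => exact Submodule.add_mem _ hF hG
  | smul c F _ hF => exact Submodule.smul_mem _ c hF

theorem LSA.cup [Fintype κ] [DecidableEq κ] [Fintype κ'] [DecidableEq κ']
    {F : (κ → X.H1) → L} {G : (κ' → X.H1) → L} (hF : F ∈ LSA 𝒜 L X κ) (hG : G ∈ LSA 𝒜 L X κ') :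
    cupFun F G ∈ LSA 𝒜 L X (κ ⊕ κ') := by
  induction hF using Submodule.span_induction with
  | mem F hF =>
    obtain ⟨f, hf, rfl⟩ := hF
    induction hG using Submodule.span_induction with
    | mem G hG =>
      obtain ⟨g, hg, rfl⟩ := hG
      have h1 : cupFun (fun v => ((f v : ℚ) : L)) (fun v => ((g v : ℚ) : L)) =
          fun v => ((cupAlt f g v : ℚ) : L) := by
        funext v
        rw [cupAlt_apply]
        unfold cupFun
        push_cast
        rfl
      rw [h1]
      exact LSA.of_mem (𝒜.cup (X := av X) f g hf hg _ (cupAlt_apply f g))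
    | zero =>
      have h1 : cupFun (fun v => ((f v : ℚ) : L)) (0 : (κ' → X.H1) → L) = 0 := by
        funext v
        simp [cupFun]
      rw [h1]
      exact Submodule.zero_mem _
    | add G G' _ _ hG hG' =>
      have h1 : cupFun (fun v => ((f v : ℚ) : L)) (G + G') =
          cupFun (fun v => ((f v : ℚ) : L)) G + cupFun (fun v => ((f v : ℚ) : L)) G' := by
        funext v
        simp only [cupFun, Pi.add_apply, mul_add, Finset.sum_add_distrib]
      rw [h1]
      exact Submodule.add_mem _ hG hG'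
    | smul c G _ hG =>
      have h1 : cupFun (fun v => ((f v : ℚ) : L)) (c • G) =
          c • cupFun (fun v => ((f v : ℚ) : L)) G := by
        funext v
        simp only [cupFun, Pi.smul_apply, smul_eq_mul, Finset.mul_sum]
        exact Finset.sum_congr rfl fun σ _ => by ring
      rw [h1]
      exact Submodule.smul_mem _ c hG
  | zero =>
    have h1 : cupFun (0 : (κ → X.H1) → L) G = 0 := by
      funext v
      simp [cupFun]
    rw [h1]
    exact Submodule.zero_mem _
  | add F F' _ _ hF hF' =>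
    have h1 : cupFun (F + F') G = cupFun F G + cupFun F' G := by
      funext v
      simp only [cupFun, Pi.add_apply, mul_add, add_mul, Finset.sum_add_distrib]
    rw [h1]
    exact Submodule.add_mem _ hF hF'
  | smul c F _ hF =>
    have h1 : cupFun (c • F) G = c • cupFun F G := by
      funext v
      simp only [cupFun, Pi.smul_apply, smul_eq_mul, Finset.mul_sum]
      exact Finset.sum_congr rfl fun σ _ => by ring
    rw [h1]
    exact Submodule.smul_mem _ c hF

/-- Descent. -/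
theorem mem_of_LSA [Fintype κ] {f : X.H1 [⋀^κ]→ₗ[ℚ] ℚ}
    (hf : (fun v => ((f v : ℚ) : L)) ∈ LSA 𝒜 L X κ) : 𝒜.A (av X) κ f := by
  let S : Set ((κ → X.H1) → ℚ) := {g | ∃ f : X.H1 [⋀^κ]→ₗ[ℚ] ℚ, 𝒜.A (av X) κ f ∧ g = fun v => f v}
  have h1 : (fun v => ((f v : ℚ) : L)) ∈
      Submodule.span L {g : (κ → X.H1) → L | ∃ s ∈ S, g = fun x => ((s x : ℚ) : L)} := by
    refine Submodule.span_mono ?_ hf
    rintro g ⟨f, hf, rfl⟩
    exact ⟨fun v => f v, ⟨f, hf, rfl⟩, rfl⟩
  have h2 := span_descent S (fun v => f v) h1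
  have h3 : ∀ g ∈ Submodule.span ℚ S, ∃ f : X.H1 [⋀^κ]→ₗ[ℚ] ℚ,
      𝒜.A (av X) κ f ∧ g = fun v => f v := by
    intro g hg
    induction hg using Submodule.span_induction with
    | mem g hg => exact hg
    | zero => exact ⟨0, 𝒜.zero (av X) κ, rfl⟩
    | add g g' _ _ h h' =>
      obtain ⟨f, hf, rfl⟩ := h
      obtain ⟨f', hf', rfl⟩ := h'
      exact ⟨f + f', 𝒜.add (X := av X) f f' hf hf', rfl⟩
    | smul c g _ h =>
      obtain ⟨f, hf, rfl⟩ := h
      exact ⟨c • f, 𝒜.smul (X := av X) c f hf, rfl⟩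
  obtain ⟨f', hf', h4⟩ := h3 _ h2
  have h5 : f = f' := AlternatingMap.ext fun v => congrFun h4 v
  rw [h5]
  exact hf'

theorem mono_mem_LSA [Fintype κ] [DecidableEq κ] (I : κ → Wt X L)
    (h : ∀ α : L, 𝒜.A (av X) κ (trForm α I)) : mono I ∈ LSA 𝒜 L X κ := by
  obtain ⟨n, a, b, hab⟩ := exists_dual L
  have h1 : mono I = ∑ i, b i • (fun v : κ → X.H1 => ((trForm (a i) I v : ℚ) : L)) := by
    funext v
    rw [Finset.sum_apply]
    exact hab (mono I v)
  rw [h1]
  exact Submodule.sum_mem _ fun i _ => Submodule.smul_mem _ _ (LSA.of_mem (h (a i)))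

theorem LSA.glue [Fintype κ] [DecidableEq κ] {κ₁ κ₂ : Type} [Fintype κ₁] [DecidableEq κ₁]
    [Fintype κ₂] [DecidableEq κ₂] (e : κ₁ ⊕ κ₂ ≃ κ) {I : κ → Wt X L}
    (h1 : mono (fun k => I (e (Sum.inl k))) ∈ LSA 𝒜 L X κ₁)
    (h2 : mono (fun k => I (e (Sum.inr k))) ∈ LSA 𝒜 L X κ₂) : mono I ∈ LSA 𝒜 L X κ := by
  have h3 := LSA.cup h1 h2
  rw [mono_cup] at h3
  have h4 : (Fintype.card (Perm κ₁) : L) * (Fintype.card (Perm κ₂) : L) ≠ 0 := by
    rw [← Nat.cast_mul]
    exact Nat.cast_ne_zero.2 (Nat.mul_ne_zero Fintype.card_ne_zero Fintype.card_ne_zero)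
  have h5 := Submodule.smul_mem _ (((Fintype.card (Perm κ₁) : L) * (Fintype.card (Perm κ₂) : L))⁻¹) h3
  rw [smul_smul, inv_mul_cancel₀ h4, one_smul] at h5
  have h6 : Sum.elim (fun k => I (e (Sum.inl k))) (fun k => I (e (Sum.inr k))) =
      fun s => I (e s) := by
    funext s
    cases s <;> rfl
  rw [h6] at h5
  have h7 := LSA.reindex e h5
  rw [mono_reindex] at h7
  simpa using h7

end span

/-! ### One block -/

section block

variable {𝒜 : Sys} {L : Type} [Field L] [NumberField L] [IsCMField L] [IsGalois ℚ L] {X : CMAV}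
  {κ : Type} [Fintype κ] [DecidableEq κ]

/-- The product of the factors with the property `Q`. -/
abbrev sub (X : CMAV) (Q : X.I → Prop) [Fintype {i // Q i}] : CMAV :=
  ⟨{i // Q i}, fun i => X.factor i⟩

/-- The projection. -/
def prj (X : CMAV) (Q : X.I → Prop) [Fintype {i // Q i}] : X.H1 →ₗ[ℚ] (sub X Q).H1 where
  toFun w := fun i => w i
  map_add' v w := rfl
  map_smul' c v := rfl

theorem prj_hom (X : CMAV) (Q : X.I → Prop) [Fintype {i // Q i}] :
    IsHom X (sub X Q) (prj X Q) :=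
  ⟨{ toFun := fun (u : X.Tan) (i : {i // Q i}) => u i
     map_add' := fun u v => rfl
     map_smul' := fun c u => rfl }, fun w => rfl⟩

theorem mono_block (j : L →+* ℂ) (Q : X.I → Prop) [Fintype {i // Q i}]
    (hall : 𝒜.AllHodge (av (sub X Q))) (I : κ → Wt X L) (hI : ∀ k, Q (I k).1)
    (hb : Balanced (fun k => St j (I k))) : mono I ∈ LSA 𝒜 L X κ := by
  have h1 : mono (X := sub X Q) (fun k => ⟨⟨(I k).1, hI k⟩, (I k).2⟩) ∈ LSA 𝒜 L (sub X Q) κ := by
    refine mono_mem_LSA _ fun α => ?_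
    have h2 : IsHodge (sub X Q).per
        (trForm (X := sub X Q) α (fun k => ⟨⟨(I k).1, hI k⟩, (I k).2⟩)) :=
      isHodge_trForm (X := sub X Q) j _ hb α
    exact hall κ _ h2
  have h2 := LSA.pull (prj_hom X Q) h1
  rw [mono_pull (prj X Q) I _ (fun w k => rfl)] at h2
  exact h2

end block

/-! ### The theorem -/

theorem indepC {K J : Type} (T : K → CMPair) (b : K → J) (hI : IndB T b) (C : CMAV)
    (q : C.I → K) (hq : ∀ i, C.factor i = T (q i)) (j : J) : ∃ τ : ℂ ≃+* ℂ, ∀ i,
    ∀ φ : (C.factor i).E →+* ℂ, (b (q i) = j → (τ : ℂ →+* ℂ).comp φ =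
      ComplexEmbedding.conjugate φ) ∧ (b (q i) ≠ j → (τ : ℂ →+* ℂ).comp φ = φ) := by
  classical
  obtain ⟨σ, hσ⟩ := hI fun j' => if j' = j then (starRingAut : ℂ ≃+* ℂ) else RingEquiv.refl ℂ
  have h1 : ∀ (A : CMPair) (k : K), A = T k → ∀ φ : A.E →+* ℂ,
      (σ : ℂ →+* ℂ).comp φ = (((if b k = j then (starRingAut : ℂ ≃+* ℂ) else
        RingEquiv.refl ℂ) : ℂ ≃+* ℂ) : ℂ →+* ℂ).comp φ := by
    intro A k h
    subst h
    exact hσ k
  refine ⟨σ, fun i φ => ⟨fun h => ?_, fun h => ?_⟩⟩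
  · rw [h1 _ _ (hq i) φ, if_pos h]
    ext x
    rfl
  · rw [h1 _ _ (hq i) φ, if_neg h]
    ext x
    rfl

section union

variable {𝒜 : Sys} {L : Type} [Field L] [NumberField L] [IsCMField L] [IsGalois ℚ L] {X : CMAV}

/-- Balanced monomials belong to the span if this holds for the monomials of one block. -/
theorem mono_union (j : L →+* ℂ) {J : Type} (β : X.I → J)
    (hind : ∀ j0, ∃ τ : ℂ ≃+* ℂ, ∀ i, ∀ φ : (X.factor i).E →+* ℂ,
      (β i = j0 → (τ : ℂ →+* ℂ).comp φ = ComplexEmbedding.conjugate φ) ∧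
        (β i ≠ j0 → (τ : ℂ →+* ℂ).comp φ = φ))
    (hone : ∀ (j0 : J) (κ : Type) [Fintype κ] [DecidableEq κ] (I : κ → Wt X L),
      (∀ k, β (I k).1 = j0) → Balanced (fun k => St j (I k)) → mono I ∈ LSA 𝒜 L X κ) (n : ℕ) :
    ∀ (κ : Type) [Fintype κ] [DecidableEq κ], Fintype.card κ = n →
      ∀ I : κ → Wt X L, Balanced (fun k => St j (I k)) → mono I ∈ LSA 𝒜 L X κ := by
  classical
  induction n using Nat.strong_induction_on with
  | _ n ih =>
    intro κ _ _ hn I hbal
    rcases isEmpty_or_nonempty κ with he | ⟨⟨k0⟩⟩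
    · exact LSA.unit _
    obtain ⟨τ, hτ⟩ := hind (β (I k0).1)
    obtain ⟨g, hg⟩ := restrict_aut j τ
    let Q : κ → Prop := fun k => β (I k).1 = β (I k0).1
    have h1 : ∀ k, Q k → Comb.tr g (St j (I k)) = (St j (I k))ᶜ := by
      intro k hk
      have h1 : g • (I k).2 = cc L • (I k).2 := by
        have h2 := ((hτ (I k).1 (j.comp (I k).2)).1 hk)
        ext x
        apply j.injective
        change j (g ((I k).2 x)) = j (cc L ((I k).2 x))
        rw [hg, emb_cc]
        exact RingHom.congr_fun h2 x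
      change Comb.tr g (hs (X.factor (I k).1) j (I k).2) = (hs (X.factor (I k).1) j (I k).2)ᶜ
      rw [tr_hs, h1, ← tr_hs]
      exact Comb.tr_c (fun g => cc_comm j g) (isHalf_hs _ j _)
    have h2 : ∀ k, ¬ Q k → Comb.tr g (St j (I k)) = St j (I k) := by
      intro k hk
      have h1 : g • (I k).2 = (I k).2 := by
        have h2 := ((hτ (I k).1 (j.comp (I k).2)).2 hk)
        ext x
        apply j.injective
        change j (g ((I k).2 x)) = j ((I k).2 x)
        rw [hg]
        exact RingHom.congr_fun h2 x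
      change Comb.tr g (hs (X.factor (I k).1) j (I k).2) = hs (X.factor (I k).1) j (I k).2
      rw [tr_hs, h1]
    have hpart := balanced_part (fun k => St j (I k)) hbal Q g h1 h2
    have hrest := balanced_of_sub (Subtype.val : {k // Q k} → κ) Subtype.val_injective
      (fun k => rfl) hbal hpart
    have hA : mono (fun k : {k // Q k} => I k.1) ∈ LSA 𝒜 L X {k // Q k} :=
      hone (β (I k0).1) {k // Q k} _ (fun k => k.2) hpart
    have hB : mono (fun k : ((Set.range (Subtype.val : {k // Q k} → κ))ᶜ : Set κ) => I k.1) ∈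
        LSA 𝒜 L X ((Set.range (Subtype.val : {k // Q k} → κ))ᶜ : Set κ) := by
      refine ih _ ?_ _ rfl _ hrest
      rw [← hn]
      refine Fintype.card_subtype_lt (x := k0) ?_
      intro h
      exact h ⟨⟨k0, rfl⟩, rfl⟩
    exact LSA.glue ((Equiv.sumCongr (Equiv.ofInjective (Subtype.val : {k // Q k} → κ)
      Subtype.val_injective) (Equiv.refl _)).trans
      (Equiv.Set.sumCompl (Set.range (Subtype.val : {k // Q k} → κ)))) hA hB

end union

/-- From the monomials to all Hodge classes. -/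
theorem mem_of_mono (𝒜 : Sys) (X : CMAV) {κ : Type} [Finite κ]
    (hall : ∀ (L : Type) [Field L] [NumberField L] [IsCMField L] [IsGalois ℚ L] (j : L →+* ℂ),
      ∀ [Fintype κ] [DecidableEq κ] (I : κ → Wt X L), Balanced (fun k => St j (I k)) →
        mono I ∈ LSA 𝒜 L X κ)
    (f : X.H1 [⋀^κ]→ₗ[ℚ] ℚ) (hf : IsHodge X.per f) : 𝒜.A (av X) κ f := by
  classical
  have := Fintype.ofFinite κ
  rcases isEmpty_or_nonempty κ with hκ | ⟨⟨k0⟩⟩
  · exact 𝒜.unit (X := av X) f
  rcases isEmpty_or_nonempty X.I with hI | hI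
  · have h1 : f = 0 := by
      ext v
      have h2 : v k0 = 0 := by
        funext i
        exact (hI.false i).elim
      rw [f.map_coord_zero k0 h2]
      rfl
    rw [h1]
    exact 𝒜.zero (av X) κ
  obtain ⟨L, _, _, _, _, j, hj⟩ := exists_cm X
  apply mem_of_LSA (L := L)
  obtain ⟨c, hc⟩ := form_coeff (E := fun i : X.I => (X.factor i).E) (fun i : X.I => i) j hj
    f.toMultilinearMap
  have hmono : ∀ I : κ → Wt X L, c I ≠ 0 → mono I ∈ LSA 𝒜 L X κ := by
    intro I hI
    have h1 : Balanced (fun k => St j (I k)) := by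
      intro σ
      have h2 := balanced_of_hodge (E := fun i : X.I => (X.factor i).E)
        (Φ := fun i : X.I => (X.factor i).Φ) (fun i : X.I => i) j
        (fun i => (X.factor i).isCMType) hj f hf c hc I hI σ
      exact h2
    exact hall L j I h1
  have hsum : ((Fintype.card (Perm κ) : ℕ) : L) • (fun v : κ → X.H1 => ((f v : ℚ) : L)) =
      ∑ I : κ → Wt X L, c I • mono I := by
    funext v
    rw [Finset.sum_apply, Pi.smul_apply, smul_eq_mul]
    have h1 : ∀ σ : Perm κ, ((f v : ℚ) : L) = ((Perm.sign σ : ℤ) : L) *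
        ∑ I : κ → Wt X L, c I * ∏ k, ev (v (σ k)) (I k) := by
      intro σ
      have h2 : ((f (fun k => v (σ k)) : ℚ) : L) =
          ∑ I : κ → Wt X L, c I * ∏ k, ev (v (σ k)) (I k) := hc (fun k => v (σ k))
      rw [← h2]
      have h3 : f (fun k => v (σ k)) = Perm.sign σ • f v := f.map_perm v σ
      rw [h3, Units.smul_def, zsmul_eq_mul, Rat.cast_mul, Rat.cast_intCast, ← mul_assoc,
        ← Int.cast_mul, ← Units.val_mul, Int.units_mul_self, Units.val_one, Int.cast_one, one_mul]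
    have h4 : ((Fintype.card (Perm κ) : ℕ) : L) * ((f v : ℚ) : L) =
        ∑ σ : Perm κ, ((Perm.sign σ : ℤ) : L) *
          ∑ I : κ → Wt X L, c I * ∏ k, ev (v (σ k)) (I k) := by
      rw [← Finset.sum_congr rfl (fun σ _ => h1 σ), Finset.sum_const, Finset.card_univ,
        nsmul_eq_mul]
    rw [h4]
    simp only [Finset.mul_sum]
    rw [Finset.sum_comm]
    refine Finset.sum_congr rfl fun I _ => ?_
    rw [Pi.smul_apply, smul_eq_mul, mono_apply, Finset.mul_sum]
    refine Finset.sum_congr rfl fun σ _ => ?_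
    ring
  have h5 : ((Fintype.card (Perm κ) : ℕ) : L) • (fun v : κ → X.H1 => ((f v : ℚ) : L)) ∈
      LSA 𝒜 L X κ := by
    rw [hsum]
    refine Submodule.sum_mem _ fun I _ => ?_
    by_cases hI : c I = 0
    · rw [hI, zero_smul]
      exact Submodule.zero_mem _
    · exact Submodule.smul_mem _ _ (hmono I hI)
  have hne : ((Fintype.card (Perm κ) : ℕ) : L) ≠ 0 := Nat.cast_ne_zero.2 Fintype.card_ne_zero
  have h6 := Submodule.smul_mem _ (((Fintype.card (Perm κ) : ℕ) : L))⁻¹ h5
  rwa [smul_smul, inv_mul_cancel₀ hne, one_smul] at h6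

theorem t_PROD : Pool.Agent.N178.HX.S_PROD := by
  classical
  intro K J _ T b hI 𝒜 h𝒜 C hC
  choose q hq using hC
  intro κ _ f hf
  refine mem_of_mono 𝒜 C ?_ f hf
  intro L _ _ _ _ j _ _ I hb
  refine mono_union j (fun i => b (q i)) (fun j0 => indepC T b hI C q hq j0) ?_ _ κ rfl I hb
  intro j0 κ _ _ I hIj hb
  refine mono_block j (fun i => b (q i) = j0) ?_ I hIj hb
  exact h𝒜 j0 _ fun i => ⟨q i.1, i.2, hq i.1⟩

end

end Pool.Agent.N776.HX
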